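import Pool.Agent.V8H38.RM.Defs

/-!
# The activity of a circuit
-/

namespace Pool.Agent.V8H38.NL.Net

variable {n : ℕ}

open Classical in
/-- The set of the nodes that are read by (later) NOT gates and arbitrary gates. -/
noncomputable def wired (C : Net n) : Finset ℕ :=
  (Finset.range C.nodes.length).filter fun k =>
    ∃ (i : ℕ) (h : i < C.nodes.length), k < i ∧ k ∈ (C.nodes[i]).wires

/-- Some node that is read by a NOT gate or an arbitrary gate has different values for the inputs
`x` and `y`. -/
def Change (C : Net n) (x y : Fin n → Bool) : Prop :=
  ∃ k ∈ C.wired, (vals x C.nodes).getD k false ≠ (vals y C.nodes).getD k false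

open Classical in
/-- The number of steps of the sequence `X 0, ..., X T` at which the value of some node that is read
by a NOT gate or an arbitrary gate changes. -/
noncomputable def changes (C : Net n) (X : ℕ → Fin n → Bool) (T : ℕ) : ℕ :=
  ((Finset.range T).filter fun j => C.Change (X j) (X (j + 1))).card

/-- The activity of the circuit for the order `π` of the variables, where `π a` is the position of
the variable `a`: the number of steps at which the value of some node that is read by a NOT gate or
an arbitrary gate changes when the variables, which are first all `false`, are set to `true` one
after the other. -/
noncomputable def activity (C : Net n) (π : Equiv.Perm (Fin n)) : ℕ :=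
  C.changes (fun i a => decide ((π a : ℕ) < i)) n

end Pool.Agent.V8H38.NL.Net
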